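import Pool.Agent.Helper66.SB.Goals

/-!
Project SB (MP_d3128a_ag), packet ELIM (helper28).
-/

set_option autoImplicit false

open MvPolynomial

noncomputable section

namespace Pool.Agent.Helper28.SB

open Pool.Agent.Helper66.SB Helper18.Shgh

/-- Elimination for polynomials in `y` over `ℂ[x]`. -/
theorem elim_poly' (K : Type) [Field K] [Algebra (Polynomial ℂ) K]
    [IsFractionRing (Polynomial ℂ) K]
    (F g : Polynomial (Polynomial ℂ)) (hF : Irreducible F) (hg : ¬ F ∣ g) :
    ∃ (a b : Polynomial (Polynomial ℂ)) (q : Polynomial ℂ), q ≠ 0 ∧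
      a * F + b * g = Polynomial.C q := by
  by_cases hd : F.natDegree = 0
  · refine ⟨1, 0, F.coeff 0, ?_, ?_⟩
    · intro h
      apply hF.ne_zero
      rw [Polynomial.eq_C_of_natDegree_eq_zero hd, h, map_zero]
    · rw [one_mul, zero_mul, add_zero]
      exact Polynomial.eq_C_of_natDegree_eq_zero hd
  · have hp : F.IsPrimitive := hF.isPrimitive hd
    have h1 : Irreducible (F.map (algebraMap (Polynomial ℂ) K)) :=
      hp.irreducible_iff_irreducible_map_fraction_map.1 hF
    have h2 : ¬ F.map (algebraMap (Polynomial ℂ) K) ∣ g.map (algebraMap (Polynomial ℂ) K) :=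
      fun h => hg (hp.dvd_of_fraction_map_dvd_fraction_map h)
    obtain ⟨u, v, huv⟩ := (h1.coprime_iff_not_dvd).2 h2
    obtain ⟨b1, hb1, e1⟩ := IsLocalization.integerNormalization_spec
      (nonZeroDivisors (Polynomial ℂ)) u
    obtain ⟨b2, hb2, e2⟩ := IsLocalization.integerNormalization_spec
      (nonZeroDivisors (Polynomial ℂ)) v
    refine ⟨Polynomial.C b2 * IsLocalization.integerNormalization
      (nonZeroDivisors (Polynomial ℂ)) u, Polynomial.C b1 * IsLocalization.integerNormalization
      (nonZeroDivisors (Polynomial ℂ)) v, b1 * b2,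
      mul_ne_zero (nonZeroDivisors.ne_zero hb1) (nonZeroDivisors.ne_zero hb2), ?_⟩
    apply Polynomial.map_injective (algebraMap (Polynomial ℂ) K) (IsFractionRing.injective _ _)
    rw [Algebra.smul_def, Polynomial.algebraMap_apply] at e1 e2
    rw [Polynomial.map_add, Polynomial.map_mul, Polynomial.map_mul, Polynomial.map_mul,
      Polynomial.map_mul, e1, e2, Polynomial.map_C, Polynomial.map_C, Polynomial.map_C, map_mul,
      map_mul]
    linear_combination (Polynomial.C (algebraMap (Polynomial ℂ) K b1)
      * Polynomial.C (algebraMap (Polynomial ℂ) K b2)) * huv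

/-- Elimination for polynomials in `y` over `ℂ[x]`. -/
theorem elim_poly (F g : Polynomial (Polynomial ℂ)) (hF : Irreducible F) (hg : ¬ F ∣ g) :
    ∃ (a b : Polynomial (Polynomial ℂ)) (q : Polynomial ℂ), q ≠ 0 ∧
      a * F + b * g = Polynomial.C q :=
  elim_poly' (FractionRing (Polynomial ℂ)) F g hF hg

/-- `x ↦ C X`, `y ↦ X`. -/
def toB : R2 →ₐ[ℂ] Polynomial (Polynomial ℂ) :=
  aeval ![Polynomial.C Polynomial.X, Polynomial.X]

/-- the inverse. -/
def fromB : Polynomial (Polynomial ℂ) →+* R2 :=
  Polynomial.eval₂RingHom (Polynomial.aeval (X 0 : R2)).toRingHom (X 1)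

theorem fromB_C (q : Polynomial ℂ) : fromB (Polynomial.C q) = Polynomial.aeval (X 0 : R2) q := by
  simp [fromB]

theorem fromB_toB (f : R2) : fromB (toB f) = f := by
  induction f using MvPolynomial.induction_on with
  | C a =>
    have h1 : toB (C a) = Polynomial.C (Polynomial.C a) := by
      rw [toB, ← MvPolynomial.algebraMap_eq, AlgHom.commutes]
      rfl
    rw [h1, fromB_C, Polynomial.aeval_C]
    rfl
  | add p q hp hq => rw [map_add, map_add, hp, hq]
  | mul_X p i hp =>
    rw [map_mul, map_mul, hp]
    congr 1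
    fin_cases i
    · simp [toB, fromB]
    · simp [toB, fromB]

theorem toB_fromB (f : Polynomial (Polynomial ℂ)) : toB (fromB f) = f := by
  have h1 : ∀ q : Polynomial ℂ, toB (Polynomial.aeval (X 0 : R2) q) = Polynomial.C q := by
    intro q
    induction q using Polynomial.induction_on' with
    | add p q hp hq => rw [map_add, map_add, hp, hq, map_add]
    | monomial n a =>
      rw [Polynomial.aeval_monomial, map_mul, map_pow]
      have h2 : toB (algebraMap ℂ R2 a) = Polynomial.C (Polynomial.C a) := by
        rw [AlgHom.commutes]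
        rfl
      rw [h2, ← Polynomial.C_mul_X_pow_eq_monomial, map_mul, map_pow]
      simp [toB]
  induction f using Polynomial.induction_on' with
  | add p q hp hq => rw [map_add, map_add, hp, hq]
  | monomial n a =>
    rw [← Polynomial.C_mul_X_pow_eq_monomial, map_mul, map_mul, map_pow, map_pow, fromB_C, h1]
    simp [toB, fromB]

/-- the equivalence. -/
def eB : R2 ≃* Polynomial (Polynomial ℂ) where
  toFun := toB
  invFun := fromB
  left_inv := fromB_toB
  right_inv := toB_fromB
  map_mul' := map_mul toB

/-- **ELIM**. -/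
theorem gELIM : G_ELIM := by
  intro F g hF hg
  have h1 : Irreducible (toB F) := (MulEquiv.irreducible_iff eB).2 hF
  have h2 : ¬ toB F ∣ toB g := by
    rintro ⟨c, hc⟩
    apply hg
    refine ⟨fromB c, ?_⟩
    have := congrArg fromB hc
    rwa [map_mul, fromB_toB, fromB_toB] at this
  obtain ⟨a, b, q, hq, h⟩ := elim_poly _ _ h1 h2
  refine ⟨fromB a, fromB b, q, hq, ?_⟩
  have := congrArg fromB h
  rwa [map_add, map_mul, map_mul, fromB_toB, fromB_toB, fromB_C] at this

end Pool.Agent.Helper28.SB
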